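import Mathlib
import Pool.Agent.Lib.MP_3f84da_ag.Abstract

open MvPolynomial

namespace Pool.Agent.Results.MP_3f84da_ag.ToricIffShortestTrek

/-- A directed acyclic graph on the vertex set `[n]` (here `Fin n`), labelled so that every edge
`i → j` has `i < j`. -/
structure DAG (n : ℕ) where
  /-- `edge i j` means `i → j`. -/
  edge : Fin n → Fin n → Prop
  lt_of_edge : ∀ i j, edge i j → i < j

namespace DAG

variable {n : ℕ} (G : DAG n)

/-- The edges `k → l` of `G`. -/
abbrev Edge : Type := {e : Fin n × Fin n // G.edge e.1 e.2}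

/-- The parameters: `a_i` for the vertices `i` (left summand) and `λ_{kl}` for the edges `k → l`
(right summand). -/
abbrev Param : Type := Fin n ⊕ G.Edge

/-- `p` (the list of visited vertices) is a simple trek between `i` and `j`: it starts at `i`,
ends at `j`, repeats no vertex, consecutive vertices are joined by an edge of either orientation,
and it has no collider. -/
structure IsTrek (i j : Fin n) (p : List (Fin n)) : Prop where
  head : p.head? = some i
  last : p.getLast? = some j
  nodup : p.Nodup
  adj : p.IsChain (fun x y => G.edge x y ∨ G.edge y x)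
  no_collider : ∀ x k y, [x, k, y] <:+: p → ¬ (G.edge x k ∧ G.edge y k)

open Classical in
/-- The set `T(i, j)` of simple treks between `i` and `j`. -/
noncomputable def treks (i j : Fin n) : Finset {p : List (Fin n) // p.Nodup} :=
  Finset.univ.filter (fun p => G.IsTrek i j p.1)

open Classical in
/-- The parameter `λ_{kl}` of the edge joining the vertices `x` and `y` (`k → l` is `x → y` or
`y → x`). -/
noncomputable def edgeVar (x y : Fin n) : MvPolynomial G.Param ℂ :=
  if h : G.edge x y then X (Sum.inr ⟨(x, y), h⟩)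
  else if h : G.edge y x then X (Sum.inr ⟨(y, x), h⟩)
  else 1

/-- The top vertex of a trek `p` starting at `i`: its smallest vertex. As edges go from smaller to
larger vertices, this is the unique vertex of `p` into which no edge of `p` points, see
`top_spec` and `top_unique`. -/
def top (i : Fin n) (p : List (Fin n)) : Fin n := p.foldr min i

/-- The trek monomial `a_top ∏ λ_{kl}` of a trek `p` starting at `i`. -/
noncomputable def trekMonomial (i : Fin n) (p : List (Fin n)) : MvPolynomial G.Param ℂ :=
  X (Sum.inl (top i p)) * (List.zipWith G.edgeVar p p.tail).prod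

/-- The indices of the variables `σ_{ij}`, `i ≤ j`. -/
abbrev SigmaIndex (n : ℕ) : Type := {s : Fin n × Fin n // s.1 ≤ s.2}

/-- The simple trek rule `φ_G`: `σ_{ij}` goes to the sum of the trek monomials over `T(i, j)`. -/
noncomputable def phi : MvPolynomial (SigmaIndex n) ℂ →ₐ[ℂ] MvPolynomial G.Param ℂ :=
  aeval fun s => ∑ p ∈ G.treks s.1.1 s.1.2, G.trekMonomial s.1.1 p.1

/-- The vanishing ideal `I_G = ker φ_G`. -/
noncomputable def I : Ideal (MvPolynomial (SigmaIndex n) ℂ) := RingHom.ker G.phi

/-- `p` is a trek of minimal length in `T(i, j)`. -/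
def IsShortest (i j : Fin n) (p : {p : List (Fin n) // p.Nodup}) : Prop :=
  p ∈ G.treks i j ∧ ∀ q ∈ G.treks i j, p.1.length ≤ q.1.length

/-- The shortest trek map `ψ_G` is defined: for every pair `i < j` with `T(i, j) ≠ ∅` there is a
unique trek of minimal length in `T(i, j)`. -/
def PsiDefined : Prop :=
  ∀ i j, i < j → (G.treks i j).Nonempty → ∃! p, G.IsShortest i j p

open Classical in
/-- The shortest trek map `ψ_G` (meaningful when `PsiDefined` holds): `σ_{ij}` goes to the trek
monomial of the shortest trek in `T(i, j)`, and to `0` if `T(i, j) = ∅`. -/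
noncomputable def psi : MvPolynomial (SigmaIndex n) ℂ →ₐ[ℂ] MvPolynomial G.Param ℂ :=
  aeval fun s => if h : ∃ p, G.IsShortest s.1.1 s.1.2 p
    then G.trekMonomial s.1.1 h.choose.1 else 0

/-- The shortest trek ideal `ST_G = ker ψ_G`. -/
noncomputable def ST : Ideal (MvPolynomial (SigmaIndex n) ℂ) := RingHom.ker G.psi

end DAG

/-- An ideal of a polynomial ring is toric if it is the kernel of a homomorphism to a polynomial
ring sending each variable to a monomial or to `0`. -/
def IsToric {S : Type} (J : Ideal (MvPolynomial S ℂ)) : Prop :=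
  ∃ (τ : Type) (θ : MvPolynomial S ℂ →ₐ[ℂ] MvPolynomial τ ℂ),
    (∀ s, θ (X s) = 0 ∨ ∃ m : τ →₀ ℕ, θ (X s) = monomial m 1) ∧ J = RingHom.ker θ

/-- The wide sense of toric: the kernel of a homomorphism to the monoid algebra of an arbitrary
commutative monoid `M` (for instance Laurent polynomials) sending each variable to a scalar
multiple (possibly zero) of an element of `M`. -/
def IsToricWide {S : Type} (J : Ideal (MvPolynomial S ℂ)) : Prop :=
  ∃ (M : Type) (_ : AddCommMonoid M) (θ : MvPolynomial S ℂ →ₐ[ℂ] AddMonoidAlgebra ℂ M),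
    (∀ s, ∃ (m : M) (c : ℂ), θ (X s) = AddMonoidAlgebra.single m c) ∧ J = RingHom.ker θ

open Pool.Agent.Lib.MP_3f84da_ag

namespace DAG

variable {n : ℕ} (G : DAG n)

/-! ### Treks -/

lemma mem_treks {i j : Fin n} {p : {p : List (Fin n) // p.Nodup}} :
    p ∈ G.treks i j ↔ G.IsTrek i j p.1 := by
  simp [treks]

lemma not_edge_symm {x y : Fin n} (h : G.edge x y) : ¬ G.edge y x := by
  intro h'
  exact absurd (G.lt_of_edge _ _ h) (not_lt.mpr (G.lt_of_edge _ _ h').le)

lemma edgeVar_of_edge {x y : Fin n} (h : G.edge x y) :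
    G.edgeVar x y = X (Sum.inr ⟨(x, y), h⟩) := by
  rw [edgeVar, dif_pos h]

lemma edgeVar_of_edge' {x y : Fin n} (h : G.edge y x) :
    G.edgeVar x y = X (Sum.inr ⟨(y, x), h⟩) := by
  rw [edgeVar, dif_neg (G.not_edge_symm h), dif_pos h]

open Classical in
/-- The exponent vector of `edgeVar`. -/
noncomputable def edgeExp (x y : Fin n) : G.Param →₀ ℕ :=
  if h : G.edge x y then Finsupp.single (Sum.inr ⟨(x, y), h⟩) 1
  else if h : G.edge y x then Finsupp.single (Sum.inr ⟨(y, x), h⟩) 1
  else 0

lemma edgeVar_eq (x y : Fin n) : G.edgeVar x y = monomial (G.edgeExp x y) 1 := by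
  classical
  rw [edgeVar, edgeExp]
  split_ifs
  · rfl
  · rfl
  · rfl

/-- The exponent vector of the edge part of a trek monomial. -/
noncomputable def pathExp (p : List (Fin n)) : G.Param →₀ ℕ :=
  (List.zipWith G.edgeExp p p.tail).sum

lemma pathExp_cons_cons (x y : Fin n) (l : List (Fin n)) :
    G.pathExp (x :: y :: l) = G.edgeExp x y + G.pathExp (y :: l) := by
  simp [pathExp]

lemma pathExp_singleton (x : Fin n) : G.pathExp [x] = 0 := by
  simp [pathExp]

lemma prod_edgeVar (p : List (Fin n)) :
    (List.zipWith G.edgeVar p p.tail).prod = monomial (G.pathExp p) 1 := by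
  induction p with
  | nil => simp [pathExp]
  | cons x l ih =>
    cases l with
    | nil => simp [pathExp]
    | cons y l =>
      rw [pathExp_cons_cons]
      have h1 : List.zipWith G.edgeVar (x :: y :: l) (x :: y :: l).tail =
          G.edgeVar x y :: List.zipWith G.edgeVar (y :: l) (y :: l).tail := by
        simp
      rw [h1, List.prod_cons, ih, edgeVar_eq, monomial_mul, one_mul]

lemma trekMonomial_eq (i : Fin n) (p : List (Fin n)) :
    G.trekMonomial i p = monomial (Finsupp.single (Sum.inl (top i p)) 1 + G.pathExp p) 1 := by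
  rw [trekMonomial, prod_edgeVar, X, monomial_mul, one_mul]

lemma edgeExp_ne_zero {x y : Fin n} {e : G.Edge} (h : G.edgeExp x y (Sum.inr e) ≠ 0) :
    (e.1.1 = x ∧ e.1.2 = y) ∨ (e.1.1 = y ∧ e.1.2 = x) := by
  classical
  rw [edgeExp] at h
  split_ifs at h with h1 h2
  · rw [Finsupp.single_apply] at h
    split_ifs at h with h3
    · have h4 : (⟨(x, y), h1⟩ : G.Edge) = e := Sum.inr.inj h3
      left
      rw [← h4]
      exact ⟨rfl, rfl⟩
    · exact absurd rfl h
  · rw [Finsupp.single_apply] at h
    split_ifs at h with h3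
    · have h4 : (⟨(y, x), h2⟩ : G.Edge) = e := Sum.inr.inj h3
      right
      rw [← h4]
      exact ⟨rfl, rfl⟩
    · exact absurd rfl h
  · simp at h

lemma pathExp_mem {l : List (Fin n)} {e : G.Edge} (h : G.pathExp l (Sum.inr e) ≠ 0) :
    e.1.1 ∈ l ∧ e.1.2 ∈ l := by
  induction l with
  | nil => simp [pathExp] at h
  | cons x l ih =>
    cases l with
    | nil => rw [pathExp_singleton] at h; simp at h
    | cons y l =>
      rw [pathExp_cons_cons, Finsupp.add_apply] at h
      by_cases h1 : G.edgeExp x y (Sum.inr e) = 0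
      · rw [h1, zero_add] at h
        have h2 := ih h
        exact ⟨List.mem_cons_of_mem _ h2.1, List.mem_cons_of_mem _ h2.2⟩
      · rcases G.edgeExp_ne_zero h1 with ⟨h2, h3⟩ | ⟨h2, h3⟩
        · rw [h2, h3]
          simp
        · rw [h2, h3]
          simp

lemma edgeExp_inl (x y z : Fin n) : G.edgeExp x y (Sum.inl z) = 0 := by
  classical
  rw [edgeExp]
  split_ifs
  · rw [Finsupp.single_apply, if_neg (by simp)]
  · rw [Finsupp.single_apply, if_neg (by simp)]
  · simp

lemma pathExp_inl (l : List (Fin n)) (z : Fin n) : G.pathExp l (Sum.inl z) = 0 := by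
  induction l with
  | nil => simp [pathExp]
  | cons x l ih =>
    cases l with
    | nil => rw [pathExp_singleton]; simp
    | cons y l => rw [pathExp_cons_cons, Finsupp.add_apply, edgeExp_inl, ih]

/-- The edge joining two adjacent vertices has exponent one. -/
lemma exists_edge {x y : Fin n} (h : G.edge x y ∨ G.edge y x) :
    ∃ e : G.Edge, G.edgeExp x y = Finsupp.single (Sum.inr e) 1 ∧
      ((e.1.1 = x ∧ e.1.2 = y) ∨ (e.1.1 = y ∧ e.1.2 = x)) := by
  classical
  rcases h with h | h
  · exact ⟨⟨(x, y), h⟩, by rw [edgeExp, dif_pos h], Or.inl ⟨rfl, rfl⟩⟩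
  · exact ⟨⟨(y, x), h⟩, by rw [edgeExp, dif_neg (G.not_edge_symm h), dif_pos h],
      Or.inr ⟨rfl, rfl⟩⟩

/-- A path without repeated vertices is determined by its first vertex and its edges. -/
lemma path_ext (p : List (Fin n)) : ∀ (q : List (Fin n)), p.head? = q.head? →
    p.Nodup → q.Nodup → p.IsChain (fun x y => G.edge x y ∨ G.edge y x) →
    q.IsChain (fun x y => G.edge x y ∨ G.edge y x) → G.pathExp p = G.pathExp q → p = q := by
  induction p with
  | nil =>
    intro q h _ _ _ _ _
    cases q with
    | nil => rfl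
    | cons y q => simp at h
  | cons x p ih =>
    intro q hhead hp hq hcp hcq hexp
    cases q with
    | nil => simp at hhead
    | cons x' q =>
      have hxx : x = x' := by simpa using hhead
      subst hxx
      cases p with
      | nil =>
        cases q with
        | nil => rfl
        | cons z q =>
          exfalso
          rw [pathExp_singleton, pathExp_cons_cons] at hexp
          obtain ⟨e, he, _⟩ := G.exists_edge (List.isChain_cons_cons.mp hcq).1
          have h1 := DFunLike.congr_fun hexp (Sum.inr e)
          rw [he] at h1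
          simp at h1
          omega
      | cons y p =>
        obtain ⟨e, he, he'⟩ := G.exists_edge (List.isChain_cons_cons.mp hcp).1
        cases q with
        | nil =>
          exfalso
          rw [pathExp_singleton, pathExp_cons_cons] at hexp
          have h1 := DFunLike.congr_fun hexp (Sum.inr e)
          rw [he] at h1
          simp at h1
        | cons z q =>
          rw [pathExp_cons_cons, pathExp_cons_cons] at hexp
          have hyz : y = z := by
            have h1 := DFunLike.congr_fun hexp (Sum.inr e)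
            rw [he, Finsupp.add_apply, Finsupp.add_apply, Finsupp.single_eq_same] at h1
            by_cases h2 : G.edgeExp x z (Sum.inr e) = 0
            · exfalso
              rw [h2, zero_add] at h1
              have h3 : G.pathExp (z :: q) (Sum.inr e) ≠ 0 := by omega
              have h4 := G.pathExp_mem h3
              have h5 : x ∉ z :: q := (List.nodup_cons.mp hq).1
              rcases he' with ⟨h6, _⟩ | ⟨_, h6⟩
              · exact h5 (h6 ▸ h4.1)
              · exact h5 (h6 ▸ h4.2)
            · have hxy : x ≠ y := by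
                intro h
                have := (List.nodup_cons.mp hp).1
                rw [h] at this
                simp at this
              rcases G.edgeExp_ne_zero h2 with ⟨h3, h4⟩ | ⟨h3, h4⟩
              · rcases he' with ⟨h5, h6⟩ | ⟨h5, h6⟩
                · rw [← h6, h4]
                · exact absurd (h3.symm.trans h5) hxy
              · rcases he' with ⟨h5, h6⟩ | ⟨h5, h6⟩
                · exact absurd (h4.symm.trans h6) hxy
                · rw [← h5, h3]
          subst hyz
          have h1 := add_left_cancel hexp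
          have h2 := ih (y :: q) (by simp) (List.nodup_cons.mp hp).2 (List.nodup_cons.mp hq).2
            (List.isChain_cons_cons.mp hcp).2 (List.isChain_cons_cons.mp hcq).2 h1
          rw [h2]

/-- Distinct treks between `i` and `j` have distinct monomials. -/
lemma trek_ext {i j : Fin n} {p q : {p : List (Fin n) // p.Nodup}} (hp : p ∈ G.treks i j)
    (hq : q ∈ G.treks i j) (h : Finsupp.single (Sum.inl (top i p.1)) 1 + G.pathExp p.1 =
      Finsupp.single (Sum.inl (top i q.1)) 1 + G.pathExp q.1) : p = q := by
  rw [mem_treks] at hp hq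
  apply Subtype.ext
  apply G.path_ext p.1 q.1 (by rw [hp.head, hq.head]) p.2 q.2 hp.adj hq.adj
  ext v
  cases v with
  | inl z => rw [pathExp_inl, pathExp_inl]
  | inr e =>
    have h1 := DFunLike.congr_fun h (Sum.inr e)
    rw [Finsupp.add_apply, Finsupp.add_apply, Finsupp.single_apply, if_neg (by simp),
      Finsupp.single_apply, if_neg (by simp), zero_add, zero_add] at h1
    exact h1

/-! ### The top vertex -/

lemma top_le (i : Fin n) (p : List (Fin n)) : top i p ≤ i ∧ ∀ y ∈ p, top i p ≤ y := by
  induction p with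
  | nil => exact ⟨le_refl i, by simp⟩
  | cons x l ih =>
    have h : top i (x :: l) = min x (top i l) := rfl
    rw [h]
    refine ⟨(min_le_right _ _).trans ih.1, fun y hy => ?_⟩
    rcases List.mem_cons.mp hy with rfl | hy
    · exact min_le_left _ _
    · exact (min_le_right _ _).trans (ih.2 y hy)

lemma top_mem (i : Fin n) (p : List (Fin n)) : top i p = i ∨ top i p ∈ p := by
  induction p with
  | nil => exact Or.inl rfl
  | cons x l ih =>
    have h : top i (x :: l) = min x (top i l) := rfl
    rw [h]
    rcases min_choice x (top i l) with h1 | h1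
    · rw [h1]; right; simp
    · rw [h1]
      rcases ih with h2 | h2
      · exact Or.inl h2
      · exact Or.inr (List.mem_cons_of_mem _ h2)

/-- `t` is a vertex of the path `p` into which no edge of `p` points. -/
def IsSource (p : List (Fin n)) (t : Fin n) : Prop :=
  t ∈ p ∧ ∀ x, ([x, t] <:+: p ∨ [t, x] <:+: p) → ¬ G.edge x t

/-- No edge of a trek points into its top vertex. -/
theorem top_spec {i j : Fin n} {p : List (Fin n)} (hp : G.IsTrek i j p) :
    G.IsSource p (top i p) := by
  have hi : i ∈ p := List.mem_of_head? hp.head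
  refine ⟨?_, ?_⟩
  · rcases top_mem i p with h | h
    · rw [h]; exact hi
    · exact h
  · intro x hx he
    have hxp : x ∈ p := by
      rcases hx with h | h
      · exact h.subset (by simp)
      · exact h.subset (by simp)
    exact absurd (G.lt_of_edge _ _ he) (not_lt.mpr ((top_le i p).2 x hxp))

lemma source_lt (l : List (Fin n)) : ∀ t : Fin n,
    (t :: l).IsChain (fun x y => G.edge x y ∨ G.edge y x) →
    (∀ x k y, [x, k, y] <:+: t :: l → ¬ (G.edge x k ∧ G.edge y k)) →
    (∀ y, l.head? = some y → ¬ G.edge y t) → ∀ y ∈ l, t < y := by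
  induction l with
  | nil => intro t _ _ _ y hy; simp at hy
  | cons y l ih =>
    intro t hc hnc hs z hz
    have hty : G.edge t y := by
      rcases (List.isChain_cons_cons.mp hc).1 with h | h
      · exact h
      · exact absurd h (hs y rfl)
    have hlt := G.lt_of_edge _ _ hty
    rcases List.mem_cons.mp hz with rfl | hz
    · exact hlt
    · refine hlt.trans (ih y (List.isChain_cons_cons.mp hc).2 ?_ ?_ z hz)
      · intro a b c h
        exact hnc a b c (h.trans (List.infix_cons (List.infix_refl _)))
      · intro w hw hwy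
        obtain ⟨l', rfl⟩ : ∃ l', l = w :: l' := by
          cases l with
          | nil => simp at hw
          | cons a b => exact ⟨b, by simpa using hw⟩
        exact hnc t y w ⟨[], l', by simp⟩ ⟨hty, hwy⟩

/-- The top vertex of a trek is the only vertex into which no edge of the trek points. -/
theorem top_unique {i j : Fin n} {p : List (Fin n)} (hp : G.IsTrek i j p) {t : Fin n}
    (ht : G.IsSource p t) : t = top i p := by
  apply le_antisymm
  · obtain ⟨l₁, l₂, hl⟩ := List.append_of_mem ht.1
    have hle : ∀ y ∈ p, t ≤ y := by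
      intro y hy
      rw [hl, List.mem_append, List.mem_cons] at hy
      rcases hy with hy | rfl | hy
      · refine (G.source_lt l₁.reverse t ?_ ?_ ?_ y (List.mem_reverse.mpr hy)).le
        · have h1 : (l₁ ++ [t]).IsChain (fun x y => G.edge x y ∨ G.edge y x) :=
            List.IsChain.left_of_append (l₂ := l₂) (by simpa [← hl] using hp.adj)
          have h2 : (l₁ ++ [t]).reverse.IsChain (fun x y => G.edge x y ∨ G.edge y x) := by
            rw [List.isChain_reverse]
            exact h1.imp (fun a b h => h.symm)
          simpa using h2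
        · intro x k y h
          have h1 : [y, k, x] <:+: l₁ ++ [t] := by
            rw [← List.reverse_infix]
            simpa using h
          have h2 := hp.no_collider y k x (h1.trans ⟨[], l₂, by simp [hl]⟩)
          exact fun h3 => h2 h3.symm
        · intro y hy
          apply ht.2 y
          left
          have hy' : l₁.getLast? = some y := by simpa using hy
          obtain ⟨l', hl'⟩ := List.getLast?_eq_some_iff.mp hy'
          exact ⟨l', l₂, by simp [hl, hl']⟩
      · exact le_refl _
      · refine (G.source_lt l₂ t ?_ ?_ ?_ y hy).le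
        · exact List.IsChain.right_of_append (l₁ := l₁) (by rw [← hl]; exact hp.adj)
        · intro x k y h
          exact hp.no_collider x k y (h.trans ⟨l₁, [], by simp [hl]⟩)
        · intro y hy
          apply ht.2 y
          right
          obtain ⟨l', hl'⟩ := List.head?_eq_some_iff.mp hy
          exact ⟨l₁, l', by simp [hl, hl']⟩
    exact hle _ (G.top_spec hp).1
  · exact (top_le i p).2 t ht.1

/-! ### Initial forms -/

/-- Scaling every `λ` by `t`. -/
noncomputable def tau : MvPolynomial G.Param ℂ →ₐ[ℂ] Polynomial (MvPolynomial G.Param ℂ) :=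
  aeval (Sum.elim (fun i => Polynomial.C (X (Sum.inl i)))
    (fun e => Polynomial.C (X (Sum.inr e)) * Polynomial.X))

lemma tau_edgeVar {x y : Fin n} (h : G.edge x y ∨ G.edge y x) :
    G.tau (G.edgeVar x y) = Polynomial.C (G.edgeVar x y) * Polynomial.X := by
  rcases h with h | h
  · rw [G.edgeVar_of_edge h, tau, aeval_X, Sum.elim_inr]
  · rw [G.edgeVar_of_edge' h, tau, aeval_X, Sum.elim_inr]

lemma tau_prod (p : List (Fin n)) (hp : p.IsChain (fun x y => G.edge x y ∨ G.edge y x)) :
    G.tau (List.zipWith G.edgeVar p p.tail).prod =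
      Polynomial.C (List.zipWith G.edgeVar p p.tail).prod * Polynomial.X ^ (p.length - 1) := by
  induction p with
  | nil => simp
  | cons x l ih =>
    cases l with
    | nil => simp
    | cons y l =>
      have h1 : List.zipWith G.edgeVar (x :: y :: l) (x :: y :: l).tail =
          G.edgeVar x y :: List.zipWith G.edgeVar (y :: l) (y :: l).tail := by
        simp
      rw [List.isChain_cons_cons] at hp
      rw [h1, List.prod_cons, map_mul, ih hp.2, G.tau_edgeVar hp.1]
      simp only [List.length_cons, add_tsub_cancel_right, Polynomial.C_mul]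
      ring

lemma tau_trekMonomial {i j : Fin n} {p : List (Fin n)} (hp : G.IsTrek i j p) :
    G.tau (G.trekMonomial i p) =
      Polynomial.C (G.trekMonomial i p) * Polynomial.X ^ (p.length - 1) := by
  have h1 : G.tau (X (Sum.inl (top i p))) = Polynomial.C (X (Sum.inl (top i p))) := by
    rw [tau, aeval_X, Sum.elim_inl]
  rw [trekMonomial, map_mul, G.tau_prod p hp.adj, h1, Polynomial.C_mul]
  ring

open Classical in
/-- The sum of the trek monomials of the shortest treks. -/
noncomputable def chi (s : SigmaIndex n) : MvPolynomial G.Param ℂ :=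
  ∑ p ∈ (G.treks s.1.1 s.1.2).filter (fun p => G.IsShortest s.1.1 s.1.2 p),
    G.trekMonomial s.1.1 p.1

lemma exists_shortest {i j : Fin n} (h : (G.treks i j).Nonempty) : ∃ p, G.IsShortest i j p := by
  obtain ⟨p, hp, hmin⟩ := Finset.exists_min_image (G.treks i j) (fun p => p.1.length) h
  exact ⟨p, hp, hmin⟩

lemma tr_add {A : Type} [CommRing A] {g g' : Polynomial A} {m : ℕ} {c c' : A}
    (h : Tr g m c) (h' : Tr g' m c') : Tr (g + g') m (c + c') := by
  obtain ⟨r, rfl⟩ := h
  obtain ⟨r', rfl⟩ := h'
  refine ⟨r + r', ?_⟩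
  rw [Polynomial.C_add]
  ring

lemma tr_sum {A ι : Type} [CommRing A] (s : Finset ι) (g : ι → Polynomial A) (m : ℕ)
    (c : ι → A) (h : ∀ i ∈ s, Tr (g i) m (c i)) : Tr (∑ i ∈ s, g i) m (∑ i ∈ s, c i) := by
  classical
  induction s using Finset.induction_on with
  | empty => exact ⟨0, by simp⟩
  | insert a s ha ih =>
    rw [Finset.sum_insert ha, Finset.sum_insert ha]
    exact tr_add (h a (Finset.mem_insert_self a s))
      (ih fun i hi => h i (Finset.mem_insert_of_mem hi))

lemma phi_X (s : SigmaIndex n) :
    G.phi (X s) = ∑ p ∈ G.treks s.1.1 s.1.2, G.trekMonomial s.1.1 p.1 := by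
  rw [phi, aeval_X]

lemma isTrek_length_pos {i j : Fin n} {p : List (Fin n)} (hp : G.IsTrek i j p) : 0 < p.length := by
  cases p with
  | nil => have := hp.head; simp at this
  | cons x l => simp

lemma tr_phi (s : SigmaIndex n) : ∃ d, Tr (G.tau (G.phi (X s))) d (G.chi s) := by
  classical
  by_cases hne : (G.treks s.1.1 s.1.2).Nonempty
  · obtain ⟨p0, hp0⟩ := G.exists_shortest hne
    refine ⟨p0.1.length - 1, ?_⟩
    rw [phi_X, map_sum, chi, Finset.sum_filter]
    apply tr_sum
    intro p hp
    have hp' := (G.mem_treks).mp hp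
    rw [G.tau_trekMonomial hp']
    have hle := hp0.2 p hp
    have hpos := G.isTrek_length_pos ((G.mem_treks).mp hp0.1)
    by_cases hsh : G.IsShortest s.1.1 s.1.2 p
    · rw [if_pos hsh]
      have hlen : p.1.length = p0.1.length := le_antisymm (hsh.2 p0 hp0.1) hle
      rw [hlen]
      refine ⟨0, ?_⟩
      rw [mul_zero, add_zero, mul_comm]
    · rw [if_neg hsh]
      have hlt : p0.1.length < p.1.length := by
        refine lt_of_le_of_ne hle ?_
        intro heq
        apply hsh
        refine ⟨hp, fun q hq => ?_⟩
        rw [← heq]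
        exact hp0.2 q hq
      obtain ⟨k, hk⟩ := Nat.exists_eq_add_of_lt hlt
      refine ⟨Polynomial.C (G.trekMonomial s.1.1 p.1) * Polynomial.X ^ k, ?_⟩
      have : p.1.length - 1 = (p0.1.length - 1) + (k + 1) := by omega
      rw [this, Polynomial.C_0, zero_add]
      ring
  · refine ⟨0, ?_⟩
    rw [Finset.not_nonempty_iff_eq_empty] at hne
    rw [phi_X, chi, hne]
    simp only [Finset.sum_empty, Finset.filter_empty, map_zero]
    exact ⟨0, by simp⟩

lemma coeff_chi (s : SigmaIndex n) {p : {p : List (Fin n) // p.Nodup}}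
    (hp : G.IsShortest s.1.1 s.1.2 p) :
    (G.chi s).coeff (Finsupp.single (Sum.inl (top s.1.1 p.1)) 1 + G.pathExp p.1) = 1 := by
  classical
  rw [chi, coeff_sum]
  rw [Finset.sum_eq_single p]
  · rw [trekMonomial_eq, coeff_monomial, if_pos rfl]
  · intro q hq hqp
    rw [trekMonomial_eq, coeff_monomial, if_neg]
    intro h
    exact hqp (G.trek_ext (Finset.mem_filter.mp hq).1 hp.1 h)
  · intro h
    exact absurd (Finset.mem_filter.mpr ⟨hp.1, hp⟩) h

lemma chi_ne_zero (s : SigmaIndex n) (h : (G.treks s.1.1 s.1.2).Nonempty) : G.chi s ≠ 0 := by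
  obtain ⟨p, hp⟩ := G.exists_shortest h
  intro h0
  have h1 := G.coeff_chi s hp
  rw [h0, coeff_zero] at h1
  exact zero_ne_one h1

lemma phi_eq_zero (s : SigmaIndex n) (h : G.chi s = 0) : G.phi (X s) = 0 := by
  rw [phi_X]
  have h1 : G.treks s.1.1 s.1.2 = ∅ := by
    rw [← Finset.not_nonempty_iff_eq_empty]
    exact fun h2 => G.chi_ne_zero s h2 h
  rw [h1, Finset.sum_empty]

lemma chi_eq_of_unique (s : SigmaIndex n) {p : {p : List (Fin n) // p.Nodup}}
    (hp : G.IsShortest s.1.1 s.1.2 p) (hu : ∀ q, G.IsShortest s.1.1 s.1.2 q → q = p) :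
    G.chi s = G.trekMonomial s.1.1 p.1 := by
  classical
  rw [chi, Finset.sum_eq_single p]
  · intro q hq hqp
    exact absurd (hu q (Finset.mem_filter.mp hq).2) hqp
  · intro h
    exact absurd (Finset.mem_filter.mpr ⟨hp.1, hp⟩) h

/-! ### The base variables -/

lemma isTrek_self_iff {i : Fin n} {p : List (Fin n)} : G.IsTrek i i p ↔ p = [i] := by
  constructor
  · intro hp
    cases p with
    | nil => have := hp.head; simp at this
    | cons x l =>
      have hx : x = i := by simpa using hp.head
      subst hx
      cases l with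
      | nil => rfl
      | cons y l =>
        exfalso
        have h1 := hp.last
        have h2 : x ∈ y :: l := by
          rw [List.getLast?_cons_cons] at h1
          exact List.mem_of_getLast? h1
        exact (List.nodup_cons.mp hp.nodup).1 h2
  · rintro rfl
    refine ⟨by simp, by simp, by simp, by simp, ?_⟩
    intro x k y h
    have := h.length_le
    simp at this

lemma isTrek_edge {i j : Fin n} (h : G.edge i j) : G.IsTrek i j [i, j] := by
  have hij := G.lt_of_edge _ _ h
  refine ⟨by simp, by simp, by simp [hij.ne], by simp [h], ?_⟩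
  intro x k y h
  have := h.length_le
  simp at this

lemma isTrek_length_two {i j : Fin n} (hij : i ≠ j) {p : List (Fin n)} (hp : G.IsTrek i j p) :
    2 ≤ p.length ∧ (p.length = 2 → p = [i, j]) := by
  cases p with
  | nil => have := hp.head; simp at this
  | cons x l =>
    have hx : x = i := by simpa using hp.head
    subst hx
    cases l with
    | nil =>
      exfalso
      have := hp.last
      simp at this
      exact hij this
    | cons y l =>
      refine ⟨by simp, fun h => ?_⟩
      cases l with
      | nil =>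
        have := hp.last
        simp at this
        rw [this]
      | cons z l => simp at h

/-- The index `(i, i)`, resp. `(i, j)` for an edge `i → j`. -/
def base : G.Param → SigmaIndex n :=
  Sum.elim (fun i => ⟨(i, i), le_refl i⟩) (fun e => ⟨e.1, (G.lt_of_edge _ _ e.2).le⟩)

lemma chi_base_inl (i : Fin n) : G.chi (G.base (Sum.inl i)) = X (Sum.inl i) := by
  have hmem : (⟨[i], by simp⟩ : {p : List (Fin n) // p.Nodup}) ∈ G.treks i i := by
    rw [mem_treks]
    exact (G.isTrek_self_iff).mpr rfl
  have huniq : ∀ q ∈ G.treks i i, q = (⟨[i], by simp⟩ : {p : List (Fin n) // p.Nodup}) := by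
    intro q hq
    rw [mem_treks, isTrek_self_iff] at hq
    exact Subtype.ext hq
  have h1 := G.chi_eq_of_unique (G.base (Sum.inl i)) (p := ⟨[i], by simp⟩)
    ⟨hmem, fun q hq => by rw [huniq q hq]⟩ (fun q hq => huniq q hq.1)
  rw [h1, trekMonomial]
  simp [base, top]

lemma chi_base_inr (e : G.Edge) :
    G.chi (G.base (Sum.inr e)) = X (Sum.inl e.1.1) * X (Sum.inr e) := by
  obtain ⟨⟨i, j⟩, he⟩ := e
  have hij := G.lt_of_edge _ _ he
  simp only at hij
  have hnd : [i, j].Nodup := by simp [hij.ne]
  have hmem : (⟨[i, j], hnd⟩ : {p : List (Fin n) // p.Nodup}) ∈ G.treks i j := by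
    rw [mem_treks]
    exact G.isTrek_edge he
  have hsh : G.IsShortest i j ⟨[i, j], hnd⟩ := by
    refine ⟨hmem, fun q hq => ?_⟩
    rw [mem_treks] at hq
    exact (G.isTrek_length_two hij.ne hq).1
  have huniq : ∀ q, G.IsShortest i j q → q = ⟨[i, j], hnd⟩ := by
    intro q hq
    have h1 := hq.2 _ hmem
    have h2 := G.isTrek_length_two hij.ne ((G.mem_treks).mp hq.1)
    apply Subtype.ext
    apply h2.2
    simp only [List.length_cons, List.length_nil] at h1
    omega
  have h1 := G.chi_eq_of_unique (G.base (Sum.inr ⟨(i, j), he⟩)) (p := ⟨[i, j], hnd⟩) hsh huniq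
  rw [h1, trekMonomial]
  have htop : top i [i, j] = i := by
    simp [top, hij.le]
  simp only [base, Sum.elim_inr, htop, List.tail_cons, List.zipWith_cons_cons,
    List.zipWith_nil_right, List.prod_cons, List.prod_nil, mul_one]
  rw [G.edgeVar_of_edge he]

/-- The exponents of the base monomials. -/
noncomputable def baseExp : G.Param → (G.Param →₀ ℕ) :=
  Sum.elim (fun i => Finsupp.single (Sum.inl i) 1)
    (fun e => Finsupp.single (Sum.inl e.1.1) 1 + Finsupp.single (Sum.inr e) 1)

lemma chi_base (v : G.Param) : G.chi (G.base v) = monomial (G.baseExp v) 1 := by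
  cases v with
  | inl i => rw [chi_base_inl]; rfl
  | inr e => rw [chi_base_inr, baseExp, Sum.elim_inr, X, X, monomial_mul, one_mul]

lemma injective_base :
    Function.Injective (aeval (fun v => G.chi (G.base v)) :
      MvPolynomial G.Param ℂ →ₐ[ℂ] MvPolynomial G.Param ℂ) := by
  set K := FractionRing (MvPolynomial G.Param ℂ) with hK
  set a : G.Param → K := fun v => algebraMap (MvPolynomial G.Param ℂ) K (X v) with ha
  have ha0 : ∀ v, a v ≠ 0 := by
    intro v h
    have h1 : (X v : MvPolynomial G.Param ℂ) = 0 :=
      IsFractionRing.injective (MvPolynomial G.Param ℂ) K (by rw [map_zero]; exact h)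
    exact X_ne_zero v h1
  set ρ : MvPolynomial G.Param ℂ →ₐ[ℂ] K :=
    aeval (Sum.elim (fun i => a (Sum.inl i)) (fun e => a (Sum.inr e) / a (Sum.inl e.1.1))) with hρ
  have hcomp : ρ.comp (aeval (fun v => G.chi (G.base v))) =
      IsScalarTower.toAlgHom ℂ (MvPolynomial G.Param ℂ) K := by
    apply MvPolynomial.algHom_ext
    intro v
    cases v with
    | inl i =>
      rw [AlgHom.comp_apply, aeval_X, chi_base_inl, hρ, aeval_X, Sum.elim_inl]
      rfl
    | inr e =>
      rw [AlgHom.comp_apply, aeval_X, chi_base_inr, map_mul, hρ, aeval_X, aeval_X,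
        Sum.elim_inl, Sum.elim_inr, mul_div_cancel₀ _ (ha0 _)]
      rfl
  intro f g hfg
  have h1 : (ρ.comp (aeval (fun v => G.chi (G.base v)))) f =
      (ρ.comp (aeval (fun v => G.chi (G.base v)))) g := by
    rw [AlgHom.comp_apply, AlgHom.comp_apply, hfg]
  rw [hcomp] at h1
  exact IsFractionRing.injective (MvPolynomial G.Param ℂ) K h1

/-- The initial-form data of the simple trek rule. -/
noncomputable def initData : InitData G.phi where
  τ := G.tau
  d := fun s => (G.tr_phi s).choose
  χ := G.chi
  hφ := fun s => (G.tr_phi s).choose_spec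
  h0 := G.phi_eq_zero
  β := G.base
  e := G.baseExp
  hβ := G.chi_base
  hinj := G.injective_base

lemma unique_of_monomial (s : SigmaIndex n) {m : G.Param →₀ ℕ} {b : ℂ}
    (h : G.chi s = monomial m b) (p q : {p : List (Fin n) // p.Nodup})
    (hp : G.IsShortest s.1.1 s.1.2 p) (hq : G.IsShortest s.1.1 s.1.2 q) : p = q := by
  classical
  have h1 := G.coeff_chi s hp
  have h2 := G.coeff_chi s hq
  rw [h, coeff_monomial] at h1 h2
  have h3 : m = Finsupp.single (Sum.inl (top s.1.1 p.1)) 1 + G.pathExp p.1 := by
    by_contra hne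
    rw [if_neg hne] at h1
    exact zero_ne_one h1
  have h4 : m = Finsupp.single (Sum.inl (top s.1.1 q.1)) 1 + G.pathExp q.1 := by
    by_contra hne
    rw [if_neg hne] at h2
    exact zero_ne_one h2
  exact G.trek_ext hp.1 hq.1 (h3.symm.trans h4)

lemma psi_eq (h : ∀ s : SigmaIndex n, ∀ p q, G.IsShortest s.1.1 s.1.2 p →
    G.IsShortest s.1.1 s.1.2 q → p = q) : G.psi = aeval G.chi := by
  apply MvPolynomial.algHom_ext
  intro s
  rw [psi, aeval_X, aeval_X]
  by_cases hex : ∃ p, G.IsShortest s.1.1 s.1.2 p
  · rw [dif_pos hex]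
    exact (G.chi_eq_of_unique s hex.choose_spec
      (fun q hq => h s q _ hq hex.choose_spec)).symm
  · rw [dif_neg hex, chi]
    have h1 : G.treks s.1.1 s.1.2 = ∅ := by
      rw [← Finset.not_nonempty_iff_eq_empty]
      exact fun h2 => hex (G.exists_shortest h2)
    rw [h1, Finset.filter_empty, Finset.sum_empty]

lemma toricWide_imp (h : IsToricWide G.I) : G.PsiDefined ∧ G.I = G.ST := by
  obtain ⟨M, instM, θ, hθ, hI⟩ := h
  choose m c hθ using hθ
  have hker : RingHom.ker G.phi = RingHom.ker θ := hI
  have hle := G.initData.ker_le θ m c hθ hker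
  have hle2 := G.initData.ker_le_of_le hle
  have huniq : ∀ s : SigmaIndex n, ∀ p q, G.IsShortest s.1.1 s.1.2 p →
      G.IsShortest s.1.1 s.1.2 q → p = q := by
    intro s p q hp hq
    obtain ⟨n', b, hb⟩ := G.initData.chi_monomial θ m c hθ hker s
      (G.chi_ne_zero s ⟨p, hp.1⟩)
    exact G.unique_of_monomial s hb p q hp hq
  refine ⟨?_, ?_⟩
  · intro i j hij hne
    obtain ⟨p, hp⟩ := G.exists_shortest hne
    exact ⟨p, hp, fun q hq => huniq ⟨(i, j), hij.le⟩ q p hq hp⟩
  · rw [I, ST, G.psi_eq huniq]
    exact le_antisymm hle hle2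

lemma toric_of (h : G.I = G.ST) : IsToric G.I := by
  refine ⟨G.Param, G.psi, fun s => ?_, h⟩
  rw [psi, aeval_X]
  by_cases hex : ∃ p, G.IsShortest s.1.1 s.1.2 p
  · rw [dif_pos hex]
    exact Or.inr ⟨_, G.trekMonomial_eq _ _⟩
  · rw [dif_neg hex]
    exact Or.inl rfl

end DAG

lemma IsToric.wide {S : Type} {J : Ideal (MvPolynomial S ℂ)} (h : IsToric J) : IsToricWide J := by
  obtain ⟨τ, θ, hθ, hJ⟩ := h
  refine ⟨τ →₀ ℕ, inferInstance, θ, fun s => ?_, hJ⟩
  rcases hθ s with h | ⟨m, h⟩
  · exact ⟨0, 0, by rw [h, AddMonoidAlgebra.single_zero]⟩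
  · exact ⟨m, 1, h⟩

/-- For every DAG `G`, the vanishing ideal `I_G` is toric if and only if the shortest trek map
`ψ_G` is defined and `I_G = ST_G`; and toric may be read in the narrow or in the wide sense. -/
theorem result (n : ℕ) (G : DAG n) :
    (IsToric G.I ↔ (G.PsiDefined ∧ G.I = G.ST)) ∧
    (IsToricWide G.I ↔ (G.PsiDefined ∧ G.I = G.ST)) := by
  refine ⟨⟨fun h => G.toricWide_imp h.wide, fun h => G.toric_of h.2⟩,
    ⟨fun h => G.toricWide_imp h, fun h => (G.toric_of h.2).wide⟩⟩

end Pool.Agent.Results.MP_3f84da_ag.ToricIffShortestTrek
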